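import Pool.Agent.Helper38.RS.Goals3

/-! RS: S_KEY, the key estimate. -/

namespace Pool.Agent.Helper79.RS

open NumberField Polynomial Module IsDedekindDomain Pool.Agent.Helper38.RS

section places

variable {F : Type} [Field F] [NumberField F]

theorem place_le (w : InfinitePlace F) (x : F) : w x ≤ house x := by
  rw [← InfinitePlace.norm_embedding_eq]
  exact norm_embedding_le_house x _

theorem place_add (w : InfinitePlace F) (x y : F) : w (x + y) ≤ w x + w y := by
  rw [← InfinitePlace.norm_embedding_eq, ← InfinitePlace.norm_embedding_eq,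
    ← InfinitePlace.norm_embedding_eq, map_add]
  exact norm_add_le _ _

theorem house_le_of {x : F} {b : ℝ} (hb : 0 ≤ b) (h : ∀ w : InfinitePlace F, w x ≤ b) :
    house x ≤ b := by
  unfold house
  rw [pi_norm_le_iff_of_nonneg hb]
  intro φ
  exact h (InfinitePlace.mk φ)

variable [IsTotallyComplex F]

theorem absN_eq (x : F) : absN x = ∏ w : InfinitePlace F, (w x) ^ 2 := by
  unfold absN
  rw [← Rat.cast_abs, ← InfinitePlace.prod_eq_abs_norm]
  refine Finset.prod_congr rfl fun w _ => ?_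
  rw [IsTotallyComplex.mult_eq]

theorem finrank_eq : finrank ℚ F = 2 * Fintype.card (InfinitePlace F) := by
  rw [← InfinitePlace.sum_mult_eq, Finset.sum_congr rfl fun w _ => IsTotallyComplex.mult_eq w,
    Finset.sum_const, Finset.card_univ, smul_eq_mul, mul_comm]

theorem absN_le_house (x : F) : absN x ≤ house x ^ finrank ℚ F := by
  rw [absN_eq, finrank_eq, pow_mul, ← Finset.card_univ, ← Finset.prod_const]
  exact Finset.prod_le_prod (fun w _ => by positivity) fun w _ =>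
    pow_le_pow_left₀ (apply_nonneg _ _) (place_le w x) 2

/-- `N H² ≤ t² H^n` -/
theorem absN_mul_le (x : F) (w₀ : InfinitePlace F) :
    absN x * house x ^ 2 ≤ (w₀ x) ^ 2 * house x ^ finrank ℚ F := by
  classical
  rw [absN_eq, finrank_eq, pow_mul, ← Finset.card_univ, ← Finset.prod_const,
    ← Finset.mul_prod_erase _ _ (Finset.mem_univ w₀),
    ← Finset.mul_prod_erase Finset.univ (fun _ => house x ^ 2) (Finset.mem_univ w₀)]
  have h1 : ∏ w ∈ Finset.univ.erase w₀, (w x) ^ 2 ≤ ∏ _w ∈ Finset.univ.erase w₀, house x ^ 2 :=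
    Finset.prod_le_prod (fun w _ => by positivity) fun w _ =>
      pow_le_pow_left₀ (apply_nonneg _ _) (place_le w x) 2
  have h2 : 0 ≤ (w₀ x) ^ 2 := by positivity
  have h3 : 0 ≤ house x ^ 2 := by positivity
  calc (w₀ x) ^ 2 * (∏ w ∈ Finset.univ.erase w₀, (w x) ^ 2) * house x ^ 2
      ≤ (w₀ x) ^ 2 * (∏ _w ∈ Finset.univ.erase w₀, house x ^ 2) * house x ^ 2 := by gcongr
    _ = (w₀ x) ^ 2 * (house x ^ 2 * ∏ _w ∈ Finset.univ.erase w₀, house x ^ 2) := by ring

theorem absN_ratio {x y : F} {ρ : ℝ} (hρ : 0 ≤ ρ) (h : ∀ w : InfinitePlace F, w y ≤ ρ * w x) :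
    absN y ≤ ρ ^ finrank ℚ F * absN x := by
  rw [absN_eq, absN_eq, finrank_eq, pow_mul, ← Finset.card_univ, ← Finset.prod_const,
    ← Finset.prod_mul_distrib]
  refine Finset.prod_le_prod (fun w _ => by positivity) fun w _ => ?_
  rw [← mul_pow]
  exact pow_le_pow_left₀ (apply_nonneg _ _) (h w) 2

theorem house_ratio {x y : F} {ρ : ℝ} (hρ : 0 ≤ ρ) (h : ∀ w : InfinitePlace F, w y ≤ ρ * w x) :
    house y ≤ ρ * house x :=
  house_le_of (mul_nonneg hρ (house_nonneg x)) fun w =>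
    (h w).trans (mul_le_mul_of_nonneg_left (place_le w x) hρ)

end places

theorem absN_nonneg {F : Type} [Field F] [NumberField F] (x : F) : 0 ≤ absN x := abs_nonneg _

theorem one_le_absN {F : Type} [Field F] [NumberField F] {α : 𝓞 F} (hα : α ≠ 0) :
    1 ≤ absN (α : F) := by
  unfold absN
  rw [← Algebra.coe_norm_int, Rat.cast_intCast, ← Int.cast_abs, ← Int.cast_one, Int.cast_le]
  exact Int.one_le_abs (Algebra.norm_ne_zero_iff.mpr hα)

theorem house_pos {F : Type} [Field F] [NumberField F] {x : F} (hx : x ≠ 0) : 0 < house x := by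
  obtain ⟨w⟩ : Nonempty (InfinitePlace F) := inferInstance
  exact lt_of_lt_of_le ((InfinitePlace.pos_iff).2 hx) (place_le w x)

section main

variable {F : Type} [Field F] [NumberField F] [IsTotallyComplex F]

theorem hf_nonneg (x : F) : 0 ≤ hf x := by
  unfold hf
  exact div_nonneg (pow_nonneg (absN_nonneg x) 3) (pow_nonneg (house_nonneg x) _)

theorem hf_ratio {x y : F} (hx : x ≠ 0) (hy : y ≠ 0) {ρ : ℝ} (hρ : 0 ≤ ρ)
    (h1 : ∀ w : InfinitePlace F, w y ≤ ρ * w x) (h2 : ∀ w : InfinitePlace F, w x ≤ ρ * w y) :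
    hf y ≤ ρ ^ (6 * finrank ℚ F) * hf x := by
  unfold hf
  have hHx := house_pos hx
  have hHy := house_pos hy
  have e1 := absN_ratio hρ h1
  have e2 := house_ratio hρ h2
  rw [← mul_div_assoc, div_le_div_iff₀ (by positivity) (by positivity)]
  calc absN y ^ 3 * house x ^ (3 * finrank ℚ F)
      ≤ (ρ ^ finrank ℚ F * absN x) ^ 3 * (ρ * house y) ^ (3 * finrank ℚ F) := by
        apply mul_le_mul
        · exact pow_le_pow_left₀ (absN_nonneg y) e1 3
        · exact pow_le_pow_left₀ hHx.le e2 _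
        · positivity
        · have := absN_nonneg x
          positivity
    _ = ρ ^ (6 * finrank ℚ F) * absN x ^ 3 * house y ^ (3 * finrank ℚ F) := by
        rw [mul_pow, mul_pow, ← pow_mul]
        have : ρ ^ (6 * finrank ℚ F) = ρ ^ (finrank ℚ F * 3) * ρ ^ (3 * finrank ℚ F) := by
          rw [← pow_add]; congr 1; ring
        rw [this]; ring

end main

theorem pow_bound (x : ℝ) (h0 : 0 ≤ x) (h1 : x ≤ 1) (m : ℕ) : (1 + x) ^ m ≤ 1 + 3 ^ m * x := by
  induction m with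
  | zero => simp; linarith
  | succ m ih =>
    have h3 : (1 : ℝ) ≤ 3 ^ m := one_le_pow₀ (by norm_num)
    calc (1 + x) ^ (m + 1) = (1 + x) ^ m * (1 + x) := pow_succ _ _
      _ ≤ (1 + 3 ^ m * x) * (1 + x) := by gcongr
      _ = 1 + x + 3 ^ m * x + 3 ^ m * (x * x) := by ring
      _ ≤ 1 + 3 ^ m * x + 3 ^ m * x + 3 ^ m * (x * 1) := by gcongr; nlinarith
      _ = 1 + 3 ^ (m + 1) * x := by ring

section more

variable {F : Type} [Field F] [NumberField F] [IsTotallyComplex F]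

theorem Gf_ratio (hS : ∀ α : F, α ≠ 0 → Summable fun ε : (𝓞 F)ˣ ↦ hf ((ε : F) * α))
    {x y : F} (hx : x ≠ 0) (hy : y ≠ 0) {ρ : ℝ} (hρ : 0 ≤ ρ)
    (h1 : ∀ w : InfinitePlace F, w y ≤ ρ * w x) (h2 : ∀ w : InfinitePlace F, w x ≤ ρ * w y) :
    Gf y ≤ ρ ^ (6 * finrank ℚ F) * Gf x := by
  unfold Gf
  rw [← tsum_mul_left]
  refine Summable.tsum_le_tsum (fun ε => ?_) (hS y hy) ((hS x hx).mul_left _)
  have hε : (ε : F) ≠ 0 := NumberField.Units.coe_ne_zero ε
  refine hf_ratio (mul_ne_zero hε hx) (mul_ne_zero hε hy) hρ (fun w => ?_) (fun w => ?_)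
  · rw [map_mul, map_mul]
    calc w (ε : F) * w y ≤ w (ε : F) * (ρ * w x) :=
          mul_le_mul_of_nonneg_left (h1 w) (apply_nonneg _ _)
      _ = ρ * (w (ε : F) * w x) := by ring
  · rw [map_mul, map_mul]
    calc w (ε : F) * w x ≤ w (ε : F) * (ρ * w y) :=
          mul_le_mul_of_nonneg_left (h2 w) (apply_nonneg _ _)
      _ = ρ * (w (ε : F) * w y) := by ring

theorem gs_ratio (hS : ∀ α : F, α ≠ 0 → Summable fun ε : (𝓞 F)ˣ ↦ hf ((ε : F) * α))
    (hG : ∀ α : F, α ≠ 0 → 0 < Gf α) {s : ℝ} (hs1 : 1 ≤ s) (hs2 : s ≤ 2)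
    {x y : F} (hx : x ≠ 0) (hy : y ≠ 0) (hNx : 1 ≤ absN x) (hNy : 1 ≤ absN y) {ρ : ℝ} (hρ : 1 ≤ ρ)
    (h1 : ∀ w : InfinitePlace F, w y ≤ ρ * w x) (h2 : ∀ w : InfinitePlace F, w x ≤ ρ * w y) :
    gs s y ≤ ρ ^ (14 * finrank ℚ F) * gs s x := by
  have hρ0 : 0 ≤ ρ := by linarith
  have e1 := hf_ratio hx hy hρ0 h1 h2
  have e2 := Gf_ratio hS hy hx hρ0 h2 h1
  have e3 := absN_ratio hρ0 h2
  have hGx := hG x hx
  have hGy := hG y hy
  have hρn : 1 ≤ ρ ^ finrank ℚ F := one_le_pow₀ hρ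
  have e4 : absN x ^ s ≤ ρ ^ (2 * finrank ℚ F) * absN y ^ s := by
    calc absN x ^ s ≤ (ρ ^ finrank ℚ F * absN y) ^ s :=
          Real.rpow_le_rpow (by linarith) e3 (by linarith)
      _ = (ρ ^ finrank ℚ F) ^ s * absN y ^ s := Real.mul_rpow (by linarith) (by linarith)
      _ ≤ (ρ ^ finrank ℚ F) ^ (2 : ℝ) * absN y ^ s := by
          apply mul_le_mul_of_nonneg_right (Real.rpow_le_rpow_of_exponent_le hρn hs2)
          exact Real.rpow_nonneg (by linarith) _
      _ = ρ ^ (2 * finrank ℚ F) * absN y ^ s := by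
          congr 1
          rw [Real.rpow_two, ← pow_mul, mul_comm]
  have e5 : absN y ^ (-s) ≤ ρ ^ (2 * finrank ℚ F) * absN x ^ (-s) := by
    have hpx : 0 < absN x ^ s := Real.rpow_pos_of_pos (by linarith) _
    have hpy : 0 < absN y ^ s := Real.rpow_pos_of_pos (by linarith) _
    rw [Real.rpow_neg (by linarith), Real.rpow_neg (by linarith), ← div_eq_mul_inv,
      inv_eq_one_div, div_le_div_iff₀ hpy hpx, one_mul]
    exact e4
  have e6 : hf y / Gf y ≤ ρ ^ (12 * finrank ℚ F) * (hf x / Gf x) := by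
    rw [← mul_div_assoc, div_le_div_iff₀ hGy hGx]
    have hfx := hf_nonneg x
    have hfy := hf_nonneg y
    calc hf y * Gf x ≤ (ρ ^ (6 * finrank ℚ F) * hf x) * (ρ ^ (6 * finrank ℚ F) * Gf y) := by
          apply mul_le_mul e1 e2 hGx.le
          positivity
      _ = ρ ^ (12 * finrank ℚ F) * hf x * Gf y := by
          have : ρ ^ (12 * finrank ℚ F) = ρ ^ (6 * finrank ℚ F) * ρ ^ (6 * finrank ℚ F) := by
            rw [← pow_add]; congr 1; ring
          rw [this]; ring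
  unfold gs
  have hfx := hf_nonneg x
  have hNs : 0 ≤ absN x ^ (-s) := Real.rpow_nonneg (by linarith) _
  have hNs' : 0 ≤ absN y ^ (-s) := Real.rpow_nonneg (by linarith) _
  calc hf y / Gf y * absN y ^ (-s)
      ≤ (ρ ^ (12 * finrank ℚ F) * (hf x / Gf x)) * (ρ ^ (2 * finrank ℚ F) * absN x ^ (-s)) := by
        apply mul_le_mul e6 e5 hNs'
        positivity
    _ = ρ ^ (14 * finrank ℚ F) * (hf x / Gf x * absN x ^ (-s)) := by
        have : ρ ^ (14 * finrank ℚ F) = ρ ^ (12 * finrank ℚ F) * ρ ^ (2 * finrank ℚ F) := by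
          rw [← pow_add]; congr 1; ring
        rw [this]; ring

theorem gs_bound {c : ℝ} (hc : 0 < c) (hcG : ∀ α : F, α ≠ 0 → c ≤ Gf α) {s : ℝ} (hs1 : 1 ≤ s)
    {x : F} (hx : x ≠ 0) (hNx : 1 ≤ absN x) (w₀ : InfinitePlace F) :
    gs s x ≤ c⁻¹ * (w₀ x) ^ 2 / house x ^ (finrank ℚ F + 2) := by
  have hH := house_pos hx
  have hG := hcG x hx
  have hfx := hf_nonneg x
  have hN0 : 0 < absN x := by linarith
  have e1 : absN x ^ (-s) ≤ (absN x)⁻¹ := by
    rw [← Real.rpow_neg_one]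
    exact Real.rpow_le_rpow_of_exponent_le hNx (by linarith)
  have e2 : hf x / Gf x ≤ c⁻¹ * hf x := by
    rw [div_eq_inv_mul]
    apply mul_le_mul_of_nonneg_right _ hfx
    exact inv_anti₀ hc hG
  have e3 := absN_mul_le x w₀
  have e4 := absN_le_house x
  have e5 : absN x ^ 2 * house x ^ (finrank ℚ F + 2) ≤ (w₀ x) ^ 2 * house x ^ (3 * finrank ℚ F) := by
    calc absN x ^ 2 * house x ^ (finrank ℚ F + 2)
        = absN x * (absN x * house x ^ 2) * house x ^ finrank ℚ F := by rw [pow_add]; ring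
      _ ≤ house x ^ finrank ℚ F * ((w₀ x) ^ 2 * house x ^ finrank ℚ F) * house x ^ finrank ℚ F := by
          gcongr
      _ = (w₀ x) ^ 2 * house x ^ (3 * finrank ℚ F) := by
          have : house x ^ (3 * finrank ℚ F) =
              house x ^ finrank ℚ F * house x ^ finrank ℚ F * house x ^ finrank ℚ F := by
            rw [← pow_add, ← pow_add]; congr 1; ring
          rw [this]; ring
  unfold gs
  calc hf x / Gf x * absN x ^ (-s) ≤ (c⁻¹ * hf x) * (absN x)⁻¹ := by
        apply mul_le_mul e2 e1 (Real.rpow_nonneg hN0.le _)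
        positivity
    _ = c⁻¹ * (absN x ^ 2 / house x ^ (3 * finrank ℚ F)) := by
        unfold hf
        field_simp
    _ ≤ c⁻¹ * ((w₀ x) ^ 2 / house x ^ (finrank ℚ F + 2)) := by
        apply mul_le_mul_of_nonneg_left _ (by positivity)
        rw [div_le_div_iff₀ (by positivity) (by positivity)]
        exact e5
    _ = c⁻¹ * (w₀ x) ^ 2 / house x ^ (finrank ℚ F + 2) := by ring

end more

theorem s_key (h1 : S_GFB) : S_KEY := by
  intro F _ _ _ v
  obtain ⟨hS, -, ⟨c, hc, hcG⟩, hd⟩ := h1 F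
  have hG : ∀ α : F, α ≠ 0 → 0 < Gf α := fun α hα => lt_of_lt_of_le hc (hcG α hα)
  set n := finrank ℚ F with hn
  set V : ℝ := house (v : F) with hV
  have hV0 : 0 ≤ V := house_nonneg _
  refine ⟨(4 * V) ^ (n + 1) + c⁻¹ * (4 * V) ^ 2 + c⁻¹ * (5 * V) ^ 2 * (4 / 3) ^ (n + 2) +
    2 * 3 ^ (14 * n) * V * c⁻¹, ?_⟩
  intro s hs1 hs2 α hα hαv
  set x : F := (α : F) with hx
  set y : F := ((α + v : 𝓞 F) : F) with hy
  have hyx : y = x + (v : F) := by rw [hy, hx]; push_cast; ring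
  have hx0 : x ≠ 0 := by
    rw [hx]; exact RingOfIntegers.coe_ne_zero_iff.2 hα
  have hy0 : y ≠ 0 := by
    rw [hy]; exact RingOfIntegers.coe_ne_zero_iff.2 hαv
  have hNx : 1 ≤ absN x := one_le_absN hα
  have hNy : 1 ≤ absN y := one_le_absN hαv
  set H : ℝ := house x with hH
  have hHpos : 0 < H := house_pos hx0
  have hH1 : 1 ≤ H := one_le_house_of_isIntegral α.2 hx0
  have hrp : H ^ (-((n : ℝ) + 1)) = (H ^ (n + 1))⁻¹ := by
    rw [Real.rpow_neg hHpos.le]
    congr 1
    have : ((n : ℝ) + 1) = ((n + 1 : ℕ) : ℝ) := by push_cast; ring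
    rw [this, Real.rpow_natCast]
  rw [hrp]
  have hD : 0 < (H ^ (n + 1))⁻¹ := by positivity
  have g0 : ∀ z : F, z ≠ 0 → 1 ≤ absN z → 0 ≤ gs s z ∧ gs s z ≤ 1 := by
    intro z hz hNz
    have a1 := hd z hz
    have a2 : 0 ≤ absN z ^ (-s) := Real.rpow_nonneg (by linarith) _
    have a3 : absN z ^ (-s) ≤ 1 := Real.rpow_le_one_of_one_le_of_nonpos hNz (by linarith)
    have a4 : hf z / Gf z ≤ 1 := (div_le_one (hG z hz)).2 a1.2
    have a5 : 0 ≤ hf z / Gf z := div_nonneg a1.1.le (hG z hz).le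
    unfold gs
    exact ⟨mul_nonneg a5 a2, mul_le_one₀ a4 a2 a3⟩
  obtain ⟨gx0, gx1⟩ := g0 x hx0 hNx
  obtain ⟨gy0, gy1⟩ := g0 y hy0 hNy
  have c1 : 0 ≤ (4 * V) ^ (n + 1) := by positivity
  have c2 : 0 ≤ c⁻¹ * (4 * V) ^ 2 := by positivity
  have c3 : 0 ≤ c⁻¹ * (5 * V) ^ 2 * (4 / 3) ^ (n + 2) := by positivity
  have c4 : 0 ≤ 2 * 3 ^ (14 * n) * V * c⁻¹ := by positivity
  by_cases hcase0 : H ≤ 4 * V
  · have b1 : |gs s x - gs s y| ≤ 1 := by
      rw [abs_le]; constructor <;> linarith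
    have b2 : 1 ≤ (4 * V) ^ (n + 1) * (H ^ (n + 1))⁻¹ := by
      rw [← div_eq_mul_inv, one_le_div (by positivity)]
      exact pow_le_pow_left₀ hHpos.le hcase0 _
    calc |gs s x - gs s y| ≤ 1 := b1
      _ ≤ (4 * V) ^ (n + 1) * (H ^ (n + 1))⁻¹ := b2
      _ ≤ _ := by
        apply mul_le_mul_of_nonneg_right _ hD.le
        linarith
  push Not at hcase0
  obtain ⟨w₀, hw₀⟩ := Finite.exists_min (fun w : InfinitePlace F => w x)
  have hvw : ∀ w : InfinitePlace F, w (v : F) ≤ V := fun w => place_le w _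
  have hyw : ∀ w : InfinitePlace F, w y ≤ w x + V := by
    intro w
    rw [hyx]
    exact (place_add w x (v : F)).trans (by linarith [hvw w])
  have hxw : ∀ w : InfinitePlace F, w x ≤ w y + V := by
    intro w
    have e : x = y + -(v : F) := by rw [hyx]; ring
    have e1 : w x ≤ w y + w (-(v : F)) := by
      conv_lhs => rw [e]
      exact place_add w y _
    have e2 : w (-(v : F)) = w (v : F) := by
      rw [← InfinitePlace.norm_embedding_eq, ← InfinitePlace.norm_embedding_eq, map_neg, norm_neg]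
    rw [e2] at e1
    linarith [hvw w]
  set t : ℝ := w₀ x with ht
  have htpos : 0 < t := InfinitePlace.pos_iff.2 hx0
  have htH : t ≤ H := place_le w₀ x
  have hBx := gs_bound hc hcG hs1 hx0 hNx w₀
  by_cases hcase1 : t ≤ 4 * V
  · have hBy := gs_bound hc hcG hs1 hy0 hNy w₀
    have hH'pos : 0 < house y := house_pos hy0
    have hHH' : 3 / 4 * H ≤ house y := by
      have : H ≤ house y + V := house_le_of (by positivity) fun w =>
        (hxw w).trans (by linarith [place_le w y])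
      linarith
    have d1 : gs s x ≤ c⁻¹ * (4 * V) ^ 2 * (H ^ (n + 1))⁻¹ := by
      refine hBx.trans ?_
      rw [div_eq_mul_inv]
      apply mul_le_mul
      · gcongr
      · apply inv_anti₀ (by positivity)
        exact pow_le_pow_right₀ hH1 (by omega)
      · positivity
      · positivity
    have d2 : gs s y ≤ c⁻¹ * (5 * V) ^ 2 * (4 / 3) ^ (n + 2) * (H ^ (n + 1))⁻¹ := by
      refine hBy.trans ?_
      have e1 : w₀ y ≤ 5 * V := (hyw w₀).trans (by linarith)
      have e2 : (house y ^ (n + 2))⁻¹ ≤ (4 / 3) ^ (n + 2) * (H ^ (n + 1))⁻¹ := by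
        have e3 : (3 / 4 * H) ^ (n + 2) ≤ house y ^ (n + 2) :=
          pow_le_pow_left₀ (by positivity) hHH' _
        have e4 : (3 / 4 : ℝ) ^ (n + 2) * H ^ (n + 1) ≤ house y ^ (n + 2) := by
          refine le_trans ?_ e3
          rw [mul_pow]
          apply mul_le_mul_of_nonneg_left _ (by positivity)
          exact pow_le_pow_right₀ hH1 (by omega)
        calc (house y ^ (n + 2))⁻¹ ≤ ((3 / 4 : ℝ) ^ (n + 2) * H ^ (n + 1))⁻¹ :=
              inv_anti₀ (by positivity) e4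
          _ = (4 / 3) ^ (n + 2) * (H ^ (n + 1))⁻¹ := by
              rw [mul_inv, ← inv_pow]; norm_num
      rw [div_eq_mul_inv]
      calc c⁻¹ * (w₀ y) ^ 2 * (house y ^ (n + 2))⁻¹
          ≤ c⁻¹ * (5 * V) ^ 2 * ((4 / 3) ^ (n + 2) * (H ^ (n + 1))⁻¹) := by
            apply mul_le_mul _ e2 (by positivity) (by positivity)
            apply mul_le_mul_of_nonneg_left _ (by positivity)
            exact pow_le_pow_left₀ (apply_nonneg _ _) e1 2
        _ = _ := by ring
    have d3 : |gs s x - gs s y| ≤ gs s x + gs s y := by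
      rw [abs_le]; constructor <;> linarith
    calc |gs s x - gs s y| ≤ gs s x + gs s y := d3
      _ ≤ (c⁻¹ * (4 * V) ^ 2 + c⁻¹ * (5 * V) ^ 2 * (4 / 3) ^ (n + 2)) * (H ^ (n + 1))⁻¹ := by
          rw [add_mul]; linarith
      _ ≤ _ := by
        apply mul_le_mul_of_nonneg_right _ hD.le
        linarith
  push Not at hcase1
  -- second case: all places are large
  set η : ℝ := V / t with hη
  have hη0 : 0 ≤ η := by positivity
  have hη1 : η ≤ 1 / 4 := by
    rw [hη, div_le_iff₀ htpos]; linarith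
  have hηt : ∀ w : InfinitePlace F, V ≤ η * w x := by
    intro w
    have := hw₀ w
    calc V = η * t := by rw [hη]; field_simp
      _ ≤ η * w x := mul_le_mul_of_nonneg_left this hη0
  set ρ : ℝ := 1 + 2 * η with hρ
  have hρ1 : 1 ≤ ρ := by linarith
  have r1 : ∀ w : InfinitePlace F, w y ≤ ρ * w x := by
    intro w
    have a1 := hyw w
    have a2 := hηt w
    have a3 : 0 ≤ w x := apply_nonneg _ _
    rw [hρ]
    nlinarith
  have r2 : ∀ w : InfinitePlace F, w x ≤ ρ * w y := by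
    intro w
    have a1 := hxw w
    have a2 := hηt w
    have a3 : 0 ≤ w x := apply_nonneg _ _
    have a4 : (1 - η) * w x ≤ w y := by linarith
    have a5 : 1 ≤ (1 + 2 * η) * (1 - η) := by nlinarith
    calc w x = 1 * w x := (one_mul _).symm
      _ ≤ ((1 + 2 * η) * (1 - η)) * w x := mul_le_mul_of_nonneg_right a5 a3
      _ = ρ * ((1 - η) * w x) := by rw [hρ]; ring
      _ ≤ ρ * w y := mul_le_mul_of_nonneg_left a4 (by linarith)
  have k1 := gs_ratio hS hG hs1 hs2 hx0 hy0 hNx hNy hρ1 r1 r2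
  have k2 := gs_ratio hS hG hs1 hs2 hy0 hx0 hNy hNx hρ1 r2 r1
  have hr : ρ ^ (14 * n) ≤ 1 + 3 ^ (14 * n) * (2 * η) :=
    pow_bound (2 * η) (by positivity) (by linarith) _
  have hr1 : 1 ≤ ρ ^ (14 * n) := one_le_pow₀ hρ1
  have k3 : |gs s x - gs s y| ≤ 3 ^ (14 * n) * (2 * η) * gs s x := by
    rw [abs_le]
    have a1 : gs s y ≤ (1 + 3 ^ (14 * n) * (2 * η)) * gs s x :=
      k1.trans (mul_le_mul_of_nonneg_right hr gx0)
    constructor
    · linarith
    · -- `gs y ≥ gs x / r`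
      have a2 : (2 - ρ ^ (14 * n)) * gs s x ≤ gs s y := by
        have a3 : (2 - ρ ^ (14 * n)) * gs s x ≤ (2 - ρ ^ (14 * n)) * ρ ^ (14 * n) * gs s y ∨
            2 - ρ ^ (14 * n) ≤ 0 := by
          by_cases h : 2 - ρ ^ (14 * n) ≤ 0
          · exact Or.inr h
          · left
            push Not at h
            rw [mul_assoc]
            exact mul_le_mul_of_nonneg_left k2 h.le
        rcases a3 with a3 | a3
        · have a4 : (2 - ρ ^ (14 * n)) * ρ ^ (14 * n) ≤ 1 := by nlinarith [sq_nonneg (ρ ^ (14 * n) - 1)]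
          nlinarith
        · nlinarith
      have a5 : (ρ ^ (14 * n) - 1) * gs s x ≤ 3 ^ (14 * n) * (2 * η) * gs s x :=
        mul_le_mul_of_nonneg_right (by linarith) gx0
      nlinarith
  calc |gs s x - gs s y| ≤ 3 ^ (14 * n) * (2 * η) * gs s x := k3
    _ ≤ 3 ^ (14 * n) * (2 * η) * (c⁻¹ * t ^ 2 / H ^ (n + 2)) := by
        apply mul_le_mul_of_nonneg_left hBx (by positivity)
    _ = 2 * 3 ^ (14 * n) * V * c⁻¹ * (t / H ^ (n + 2)) := by
        rw [hη]; field_simp
    _ ≤ 2 * 3 ^ (14 * n) * V * c⁻¹ * (H ^ (n + 1))⁻¹ := by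
        apply mul_le_mul_of_nonneg_left _ c4
        rw [div_le_iff₀ (by positivity), show H ^ (n + 2) = H ^ (n + 1) * H from pow_succ _ _,
          ← mul_assoc, inv_mul_cancel₀ (by positivity), one_mul]
        exact htH
    _ ≤ _ := by
        apply mul_le_mul_of_nonneg_right _ hD.le
        linarith

end Pool.Agent.Helper79.RS
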