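import Pool.Agent.Helper36.RS.Goals

/-!
# Project RF, existence part, packet PRJ: projections onto polynomials
-/

namespace Pool.Agent.Helper79.RS

open Set Filter Topology MeasureTheory Pool.Agent.Helper47.RF Pool.Agent.Helper36.RS
open scoped ContDiff

lemma ip_eq (u v : XS) : Pool.Agent.Helper36.RS.ip u v = 4 * inner ℝ (io u) (io v) := by
  rw [Pool.Agent.Helper36.RS.ip_apply, integ, MeasureTheory.L2.inner_def]
  congr 1
  apply integral_congr_ae
  have h1 : (io u : HH → ℝ) =ᵐ[volume.restrict (Metric.ball (0 : HH) 1)] u.1 :=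
    (memLp_val u).coeFn_toLp
  have h2 : (io v : HH → ℝ) =ᵐ[volume.restrict (Metric.ball (0 : HH) 1)] v.1 :=
    (memLp_val v).coeFn_toLp
  filter_upwards [h1, h2] with x hx hy
  rw [hx, hy]
  simp [mul_comm]

lemma io_congr {z z' : XS} (h : ∀ x ≠ 0, z.1 x = z'.1 x) : io z = io z' := by
  apply MeasureTheory.Lp.ext
  have h1 : (io z : HH → ℝ) =ᵐ[volume.restrict (Metric.ball (0 : HH) 1)] z.1 :=
    (memLp_val z).coeFn_toLp
  have h2 : (io z' : HH → ℝ) =ᵐ[volume.restrict (Metric.ball (0 : HH) 1)] z'.1 :=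
    (memLp_val z').coeFn_toLp
  have h3 : ∀ᵐ x ∂(volume.restrict (Metric.ball (0 : HH) 1)), x ≠ (0 : HH) := by
    apply ae_restrict_of_ae
    rw [ae_iff]
    simp
  filter_upwards [h1, h2, h3] with x hx hy hz
  rw [hx, hy, h x hz]

lemma ip_congr {z z' : XS} (h : ∀ x ≠ 0, z.1 x = z'.1 x) (v : XS) :
    Pool.Agent.Helper36.RS.ip z v = Pool.Agent.Helper36.RS.ip z' v := by
  rw [ip_eq, ip_eq, io_congr h]

lemma zero_of_ip {z : XS} (h : Pool.Agent.Helper36.RS.ip z z = 0) : ∀ x ≠ 0, z.1 x = 0 := by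
  intro x hx
  have h0 : io z = 0 := by
    rw [ip_eq] at h
    have h1 : inner ℝ (io z) (io z) = 0 := by linarith
    exact inner_self_eq_zero.1 h1
  have h1 : (io z : HH → ℝ) =ᵐ[volume.restrict (Metric.ball (0 : HH) 1)] z.1 :=
    (memLp_val z).coeFn_toLp
  have h2 : (z.1) =ᵐ[volume.restrict (Metric.ball (0 : HH) 1 ∩ {0}ᶜ)] fun _ => (0 : ℝ) := by
    have h3 : (z.1) =ᵐ[volume.restrict (Metric.ball (0 : HH) 1)] fun _ => (0 : ℝ) := by
      rw [h0] at h1
      exact h1.symm.trans (MeasureTheory.Lp.coeFn_zero _ _ _)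
    exact ae_restrict_of_ae_restrict_of_subset inter_subset_left h3
  have h4 : IsOpen (Metric.ball (0 : HH) 1 ∩ {0}ᶜ) :=
    Metric.isOpen_ball.inter isOpen_compl_singleton
  have h5 := MeasureTheory.Measure.eqOn_open_of_ae_eq h2 h4
    (z.2.cd.continuousOn.mono inter_subset_right) continuousOn_const
  have hn : 0 < ‖x‖ := norm_pos_iff.2 hx
  have h6 : z.1 ((2 * ‖x‖)⁻¹ • x) = z.1 x := z.2.hom _ _ (by positivity)
  rw [← h6]
  apply h5
  constructor
  · rw [mem_ball_zero_iff, norm_smul, norm_inv, norm_mul, norm_norm]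
    rw [Real.norm_eq_abs, abs_of_pos (by norm_num : (0 : ℝ) < 2)]
    rw [inv_mul_lt_iff₀ (by positivity)]
    linarith
  · simp [hx]

/-- the projection onto a finite dimensional space of smooth functions -/
lemma exJ (V : Submodule ℝ XS) [FiniteDimensional ℝ V] : ∃ J : LL →ₗ[ℝ] XS,
    (∀ h, J h ∈ V) ∧ (∀ u v, Pool.Agent.Helper36.RS.ip (J (io u)) v
      = Pool.Agent.Helper36.RS.ip u (J (io v)))
    ∧ (∀ v ∈ V, ∀ u, Pool.Agent.Helper36.RS.ip (J (io v)) u = Pool.Agent.Helper36.RS.ip v u)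
    ∧ (∀ m, ∃ C, ∀ h, sn m (J h) ≤ C * ‖h‖ ^ 2) := by
  have : CompleteSpace (V.map io) := FiniteDimensional.complete ℝ _
  obtain ⟨g, hg⟩ := LinearMap.exists_rightInverse_of_surjective (io.submoduleMap V)
    (LinearMap.range_eq_top.2 (LinearMap.submoduleMap_surjective io V))
  have hg' : ∀ w : V.map io, io ((g w : V) : XS) = (w : LL) := by
    intro w
    have h := congrArg (fun f => ((f w : V.map io) : LL)) hg
    simpa using h
  set P : LL →L[ℝ] V.map io := (V.map io).orthogonalProjectionOnto with hP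
  refine ⟨V.subtype ∘ₗ g ∘ₗ P.toLinearMap, ?_, ?_, ?_, ?_⟩
  · intro h
    exact (g (P h)).2
  · intro u v
    rw [ip_eq, ip_eq]
    congr 1
    change inner ℝ (io ((g (P (io u)) : V) : XS)) (io v) = inner ℝ (io u) (io ((g (P (io v)) : V) : XS))
    rw [hg', hg', hP]
    exact Submodule.inner_starProjection_left_eq_right _ _ _
  · intro v hv u
    rw [ip_eq, ip_eq]
    congr 1
    change inner ℝ (io ((g (P (io v)) : V) : XS)) (io u) = inner ℝ (io v) (io u)
    rw [hg']
    have h1 : ((P (io v) : V.map io) : LL) = io v := by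
      rw [hP]
      exact Submodule.starProjection_eq_self_iff.2 (Submodule.mem_map_of_mem hv)
    rw [h1]
  · intro m
    have hT : ∀ w : List (Fin 3), ∃ C : ℝ, 0 ≤ C ∧ ∀ h : LL,
        Pool.Agent.Helper36.RS.ip (Wd w (g (P h) : V)) (Wd w (g (P h) : V)) ≤ C * ‖h‖ ^ 2 := by
      intro w
      set T : V.map io →ₗ[ℝ] LL := io ∘ₗ Wd w ∘ₗ V.subtype ∘ₗ g with hT
      refine ⟨4 * ‖T.toContinuousLinearMap‖ ^ 2, by positivity, ?_⟩
      intro h
      rw [ip_eq, real_inner_self_eq_norm_sq]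
      have h1 : ‖io (Wd w (g (P h) : V))‖ ≤ ‖T.toContinuousLinearMap‖ * ‖h‖ := by
        have h2 : ‖T.toContinuousLinearMap (P h)‖ ≤ ‖T.toContinuousLinearMap‖ * ‖P h‖ :=
          ContinuousLinearMap.le_opNorm _ _
        have h3 : ‖P h‖ ≤ ‖h‖ := by
          rw [hP]; exact Submodule.norm_orthogonalProjectionOnto_apply_le _ _
        calc ‖io (Wd w (g (P h) : V))‖ = ‖T.toContinuousLinearMap (P h)‖ := rfl
          _ ≤ _ := h2
          _ ≤ _ := by gcongr
      have h4 : ‖io (Wd w (g (P h) : V))‖ ^ 2 ≤ (‖T.toContinuousLinearMap‖ * ‖h‖) ^ 2 :=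
        pow_le_pow_left₀ (norm_nonneg _) h1 2
      nlinarith [h4]
    choose C hC0 hC using hT
    refine ⟨∑ w ∈ Wle m, C w, fun h => ?_⟩
    rw [sn_eq, Finset.sum_mul]
    exact Finset.sum_le_sum fun w _ => hC w h

/-- short name for the inner product -/
noncomputable abbrev ipp (u v : XS) : ℝ := Pool.Agent.Helper36.RS.ip u v

lemma ipp_sq_add (u v : XS) : ipp (u + v) (u + v) = ipp u u + 2 * ipp u v + ipp v v := by
  unfold ipp
  simp only [map_add, LinearMap.add_apply]
  rw [Pool.Agent.Helper36.RS.ip_comm v u]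
  ring

lemma ipp_zero_right {v : XS} (h : ipp v v = 0) (u : XS) : ipp u v = 0 := by
  have h1 := zero_of_ip h
  unfold ipp
  rw [Pool.Agent.Helper36.RS.ip_comm, ip_congr (z' := 0) (fun x hx => by rw [h1 x hx]; rfl)]
  simp

lemma sum_Ed_eq (v : XS) : ∑ i, ipp (Ed i v) (Ed i v) = - ipp (Lp0 v) v := by
  unfold ipp Lp0
  rw [map_sum, LinearMap.sum_apply, ← Finset.sum_neg_distrib]
  refine Finset.sum_congr rfl fun i _ => ?_
  rw [ibp i (Ed i v) v]
  ring

lemma Lp0_symm (u v : XS) : ipp (Lp0 u) v = ipp u (Lp0 v) := by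
  unfold ipp Lp0
  rw [map_sum, LinearMap.sum_apply, map_sum]
  refine Finset.sum_congr rfl fun i _ => ?_
  have e1 : Pool.Agent.Helper36.RS.ip (Ed i (Ed i u)) v
      = - Pool.Agent.Helper36.RS.ip (Ed i u) (Ed i v) := ibp i _ _
  have e2 : Pool.Agent.Helper36.RS.ip u (Ed i (Ed i v))
      = Pool.Agent.Helper36.RS.ip (Ed i (Ed i v)) u := Pool.Agent.Helper36.RS.ip_comm _ _
  have e3 : Pool.Agent.Helper36.RS.ip (Ed i (Ed i v)) u
      = - Pool.Agent.Helper36.RS.ip (Ed i v) (Ed i u) := ibp i _ _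
  have e4 : Pool.Agent.Helper36.RS.ip (Ed i v) (Ed i u)
      = Pool.Agent.Helper36.RS.ip (Ed i u) (Ed i v) := Pool.Agent.Helper36.RS.ip_comm _ _
  rw [e1, e2, e3, e4]

lemma ipp_sup {z : XS} {δ : ℝ} (hδ : 0 ≤ δ) (h : ∀ x ≠ 0, |z.1 x| ≤ δ) :
    ipp z z ≤ δ ^ 2 * (2 * Real.pi ^ 2) := by
  have h1 : ipp z z = integ (fun x => z.1 x * z.1 x) := Pool.Agent.Helper36.RS.ip_apply z z
  have h0 : integ (fun _ => (1 : ℝ)) = 2 * Real.pi ^ 2 := c4.2.2.2.2
  rw [h1, ← h0, integ, integ]
  have h2 : ∫ x in Metric.ball (0 : HH) 1, z.1 x * z.1 x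
      ≤ ∫ x in Metric.ball (0 : HH) 1, δ ^ 2 * 1 := by
    apply integral_mono_ae (integrable_val (z * z))
    · exact integrableOn_const (hs := (measure_ball_lt_top).ne) (hC := by simp)
    · have h3 : ∀ᵐ x ∂(volume.restrict (Metric.ball (0 : HH) 1)), x ≠ (0 : HH) := by
        apply ae_restrict_of_ae
        rw [ae_iff]
        simp
      filter_upwards [h3] with x hx
      have h4 := h x hx
      have h5 := abs_nonneg (z.1 x)
      change z.1 x * z.1 x ≤ δ ^ 2 * 1
      rw [← abs_mul_abs_self (z.1 x)]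
      nlinarith
  rw [integral_const_mul] at h2
  linarith

theorem prj : G_PRJ := by
  rintro ⟨V, hfd, hmono, -, hEd, hLp, hdens⟩
  have hJ : ∀ n, ∃ J : LL →ₗ[ℝ] XS,
      (∀ h, J h ∈ V n) ∧ (∀ u v, Pool.Agent.Helper36.RS.ip (J (io u)) v
        = Pool.Agent.Helper36.RS.ip u (J (io v)))
      ∧ (∀ v ∈ V n, ∀ u, Pool.Agent.Helper36.RS.ip (J (io v)) u = Pool.Agent.Helper36.RS.ip v u)
      ∧ (∀ m, ∃ C, ∀ h, sn m (J h) ≤ C * ‖h‖ ^ 2) := fun n => by
    have := hfd n
    exact exJ (V n)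
  choose J hJV hJs hJp hJb using hJ
  -- projections
  have hVm : ∀ {n m : ℕ}, n ≤ m → V n ≤ V m := fun {n m} h => monotone_nat_of_le_succ hmono h
  have hp : ∀ n u, ∀ v ∈ V n, ipp (J n (io u)) v = ipp u v := by
    intro n u v hv
    unfold ipp
    rw [hJs, Pool.Agent.Helper36.RS.ip_comm, hJp n v hv, Pool.Agent.Helper36.RS.ip_comm]
  have hpp : ∀ n u, ipp (J n (io u)) (J n (io u)) = ipp u (J n (io u)) := fun n u =>
    hp n u _ (hJV n _)
  have hcon : ∀ n u, ipp (J n (io u)) (J n (io u)) ≤ ipp u u := by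
    intro n u
    have h1 : 0 ≤ ipp (u + -(J n (io u))) (u + -(J n (io u))) := ip_nonneg _
    rw [ipp_sq_add] at h1
    have h2 : ipp u (-(J n (io u))) = - ipp u (J n (io u)) := by unfold ipp; simp
    have h3 : ipp (-(J n (io u))) (-(J n (io u))) = ipp (J n (io u)) (J n (io u)) := by
      unfold ipp; simp
    rw [h2, h3] at h1
    linarith [hpp n u]
  have hcomm : ∀ n i u, ∀ x ≠ 0, (Ed i (J n (io u))).1 x = (J n (io (Ed i u))).1 x := by
    intro n i u x hx
    have hw : Ed i (J n (io u)) - J n (io (Ed i u)) ∈ V n :=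
      Submodule.sub_mem _ (hEd n i _ (hJV n _)) (hJV n _)
    have h1 : ∀ v ∈ V n, ipp (Ed i (J n (io u)) - J n (io (Ed i u))) v = 0 := by
      intro v hv
      have h2 : ipp (Ed i (J n (io u))) v = ipp (Ed i u) v := by
        have e1 : ipp (Ed i (J n (io u))) v = - ipp (J n (io u)) (Ed i v) := ibp i _ _
        have e2 : ipp (Ed i u) v = - ipp u (Ed i v) := ibp i _ _
        rw [e1, e2, hp n u _ (hEd n i v hv)]
      have h3 := hp n (Ed i u) v hv
      have h4 : ipp (Ed i (J n (io u)) - J n (io (Ed i u))) v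
          = ipp (Ed i (J n (io u))) v - ipp (J n (io (Ed i u))) v := by
        unfold ipp; simp
      rw [h4, h2, h3, sub_self]
    have h5 := zero_of_ip (h1 _ hw) x hx
    have h6 : (Ed i (J n (io u)) - J n (io (Ed i u))).1 x
        = (Ed i (J n (io u))).1 x - (J n (io (Ed i u))).1 x := rfl
    rw [h6] at h5
    linarith
  -- spectral gap
  have hLpV : ∀ n, ∀ v ∈ V n, Lp0 v ∈ V n := by
    intro n v hv
    exact Submodule.sum_mem _ fun i _ => hEd n i _ (hEd n i _ hv)
  have hgap : ∀ n M, n ≤ M → ∀ v ∈ V M, (∀ z ∈ V n, ipp v z = 0) →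
      (((n : ℝ) + 1) * ((n : ℝ) + 3)) * ipp v v ≤ - ipp (Lp0 v) v := by
    intro n M hM
    induction M, hM using Nat.le_induction with
    | base =>
      intro v hv hz
      have h0 := hz v hv
      rw [h0, ipp_zero_right h0]
      simp
    | succ M hM ih =>
      intro v hv hz
      set v1 : XS := J M (io v) with hv1
      set v2 : XS := v - v1 with hv2
      have hvv : v = v1 + v2 := by rw [hv2]; abel
      have hv1V : v1 ∈ V M := hJV M _
      have hv2V : v2 ∈ V (M + 1) := Submodule.sub_mem _ hv (hmono M hv1V)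
      have h1 : ∀ z ∈ V M, ipp v2 z = 0 := by
        intro z hz'
        have e : ipp v2 z = ipp v z - ipp v1 z := by rw [hv2]; unfold ipp; simp
        rw [e, hv1, hp M v z hz', sub_self]
      have h2 : ∀ z ∈ V n, ipp v1 z = 0 := by
        intro z hz'
        rw [hv1, hp M v z (hVm hM hz'), hz z hz']
      have h3 := ih v1 hv1V h2
      obtain ⟨v', hv'V, hv'⟩ := hLp M v2 hv2V
      have h4 : ∀ y, ipp v' y = ipp (Lp0 v2) y + (((M : ℝ) + 1) * ((M : ℝ) + 3)) * ipp v2 y := by
        intro y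
        have e : ipp v' y = ipp (Lp0 v2 + (((M : ℝ) + 1) * ((M : ℝ) + 3)) • v2) y := by
          apply ip_congr
          intro x hx
          rw [← hv' x hx]
          rfl
        rw [e]
        unfold ipp; simp
      have h5 : ipp v' v' = 0 := by
        rw [h4, Lp0_symm, h1 _ (hLpV M _ hv'V), h1 _ hv'V]
        ring
      have h6 : ipp (Lp0 v2) v2 = -((((M : ℝ) + 1) * ((M : ℝ) + 3)) * ipp v2 v2) := by
        have e : ipp v' v2 = 0 := by
          have := ipp_zero_right h5 v2
          unfold ipp at this ⊢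
          rw [Pool.Agent.Helper36.RS.ip_comm]; exact this
        rw [h4] at e
        linarith
      have h7 : ipp (Lp0 v2) v1 = 0 := by
        rw [Lp0_symm]; exact h1 _ (hLpV M _ hv1V)
      have h8 : ipp (Lp0 v1) v2 = 0 := by
        rw [Lp0_symm]
        have : ipp v1 (Lp0 v2) = ipp (Lp0 v2) v1 := Pool.Agent.Helper36.RS.ip_comm _ _
        rw [this, h7]
      have h9 : ipp (Lp0 v) v = ipp (Lp0 v1) v1 + ipp (Lp0 v1) v2 + ipp (Lp0 v2) v1
          + ipp (Lp0 v2) v2 := by
        have e : Lp0 v = Lp0 v1 + Lp0 v2 := by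
          rw [hvv]; unfold Lp0; simp [Finset.sum_add_distrib]
        rw [e]
        have e2 : ipp (Lp0 v1 + Lp0 v2) v = ipp (Lp0 v1 + Lp0 v2) (v1 + v2) := by rw [← hvv]
        rw [e2]
        unfold ipp; simp only [map_add, LinearMap.add_apply]; ring
      have h10 : ipp v v = ipp v1 v1 + ipp v2 v2 := by
        rw [hvv, ipp_sq_add]
        have : ipp v1 v2 = ipp v2 v1 := Pool.Agent.Helper36.RS.ip_comm _ _
        rw [this, h1 _ hv1V]; ring
      have h11 : 0 ≤ ipp v2 v2 := ip_nonneg _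
      have h12 : (((n : ℝ) + 1) * ((n : ℝ) + 3)) ≤ (((M : ℝ) + 1) * ((M : ℝ) + 3)) := by
        have : (n : ℝ) ≤ M := by exact_mod_cast hM
        gcongr
      have h13 := mul_le_mul_of_nonneg_right h12 h11
      rw [h9, h10, h6, h7, h8]
      linarith
  refine ⟨J, hcomm, hJs, hcon, ?_, hJb⟩
  intro n u
  set A : ℝ := (1 / ((n : ℝ) + 1)) ^ 2 * ∑ i, ipp (Ed i u) (Ed i u) with hA
  have hsub : ∀ a b y : XS, ipp (a - b) y = ipp a y - ipp b y := by
    intro a b y; unfold ipp; simp
  have hcm : ∀ a b : XS, ipp a b = ipp b a := fun a b => Pool.Agent.Helper36.RS.ip_comm _ _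
  have hS0 : 0 ≤ ∑ i, ipp (Ed i u) (Ed i u) := Finset.sum_nonneg fun i _ => ip_nonneg _
  -- the part inside V M
  have hin : ∀ M, n ≤ M → ipp (J M (io u) - J n (io u)) (J M (io u) - J n (io u)) ≤ A := by
    intro M hM
    have hwV : J M (io u) - J n (io u) ∈ V M :=
      Submodule.sub_mem _ (hJV M _) (hVm hM (hJV n _))
    have hz : ∀ z ∈ V n, ipp (J M (io u) - J n (io u)) z = 0 := by
      intro z hz
      rw [hsub, hp M u z (hVm hM hz), hp n u z hz, sub_self]
    have h1 := hgap n M hM _ hwV hz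
    rw [← sum_Ed_eq] at h1
    have h2 : ∑ i, ipp (Ed i (J M (io u) - J n (io u))) (Ed i (J M (io u) - J n (io u)))
        ≤ ∑ i, ipp (Ed i u) (Ed i u) := by
      refine Finset.sum_le_sum fun i _ => ?_
      have hc : ∀ x ≠ 0, (Ed i (J M (io u) - J n (io u))).1 x
          = (J M (io (Ed i u)) - J n (io (Ed i u))).1 x := by
        intro x hx
        have e1 : (Ed i (J M (io u) - J n (io u))).1 x
            = (Ed i (J M (io u))).1 x - (Ed i (J n (io u))).1 x := by
          rw [map_sub]; rfl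
        have e2 : (J M (io (Ed i u)) - J n (io (Ed i u))).1 x
          = (J M (io (Ed i u))).1 x - (J n (io (Ed i u))).1 x := rfl
        rw [e1, e2, hcomm M i u x hx, hcomm n i u x hx]
      have e3 : ipp (Ed i (J M (io u) - J n (io u))) (Ed i (J M (io u) - J n (io u)))
          = ipp (J M (io (Ed i u)) - J n (io (Ed i u))) (J M (io (Ed i u)) - J n (io (Ed i u))) := by
        have e4 := ip_congr hc (Ed i (J M (io u) - J n (io u)))
        have e5 := ip_congr hc (J M (io (Ed i u)) - J n (io (Ed i u)))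
        calc ipp (Ed i (J M (io u) - J n (io u))) (Ed i (J M (io u) - J n (io u)))
            = ipp (J M (io (Ed i u)) - J n (io (Ed i u))) (Ed i (J M (io u) - J n (io u))) := e4
          _ = ipp (Ed i (J M (io u) - J n (io u))) (J M (io (Ed i u)) - J n (io (Ed i u))) :=
              hcm _ _
          _ = _ := e5
      rw [e3]
      have e6 : ipp (J M (io (Ed i u)) - J n (io (Ed i u))) (J M (io (Ed i u)) - J n (io (Ed i u)))
          = ipp (J M (io (Ed i u))) (J M (io (Ed i u)))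
            - 2 * ipp (J M (io (Ed i u))) (J n (io (Ed i u)))
            + ipp (J n (io (Ed i u))) (J n (io (Ed i u))) := by
        rw [hsub, hcm (J M (io (Ed i u))) _, hcm (J n (io (Ed i u))) (_ - _), hsub, hsub,
          hcm (J n (io (Ed i u))) (J M (io (Ed i u)))]
        ring
      have e7 : ipp (J M (io (Ed i u))) (J n (io (Ed i u)))
          = ipp (J n (io (Ed i u))) (J n (io (Ed i u))) := by
        rw [hp M (Ed i u) _ (hVm hM (hJV n _)), hpp]
      rw [e6, e7]
      have e8 := hcon M (Ed i u)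
      have e9 : 0 ≤ ipp (J n (io (Ed i u))) (J n (io (Ed i u))) := ip_nonneg _
      linarith
    have h3 : 0 ≤ ipp (J M (io u) - J n (io u)) (J M (io u) - J n (io u)) := ip_nonneg _
    have h4 : ((n : ℝ) + 1) ^ 2 * ipp (J M (io u) - J n (io u)) (J M (io u) - J n (io u))
        ≤ ∑ i, ipp (Ed i u) (Ed i u) := by
      have hn : (0 : ℝ) ≤ n := Nat.cast_nonneg n
      nlinarith
    rw [hA, div_pow, one_pow, one_div, ← div_eq_inv_mul, le_div_iff₀ (by positivity)]
    linarith
  have hmain : ∀ ε > 0, ipp (J n (io u) - u) (J n (io u) - u) ≤ A + ε := by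
    intro ε hε
    set K : ℝ := 2 * Real.pi ^ 2 with hK
    have hK0 : 0 < K := by positivity
    set δ : ℝ := min 1 (ε / K) with hδ
    have hδ0 : 0 < δ := lt_min one_pos (by positivity)
    obtain ⟨N, v, hv, hvd⟩ := hdens u δ hδ0
    set M := max n N with hM
    have hnM : n ≤ M := le_max_left _ _
    have hvM : v ∈ V M := hVm (le_max_right _ _) hv
    have hperp : ∀ z ∈ V M, ipp z (J M (io u) - u) = 0 := by
      intro z hz
      rw [hcm, hsub, hp M u z hz, sub_self]
    have h1 : ipp (J n (io u) - u) (J n (io u) - u)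
        = ipp (J n (io u) - J M (io u)) (J n (io u) - J M (io u))
          + ipp (J M (io u) - u) (J M (io u) - u) := by
      have e : J n (io u) - u = (J n (io u) - J M (io u)) + (J M (io u) - u) := by abel
      have e2 := ipp_sq_add (J n (io u) - J M (io u)) (J M (io u) - u)
      rw [← e, hperp _ (Submodule.sub_mem _ (hVm hnM (hJV n _)) (hJV M _))] at e2
      linarith
    have h2 : ipp (v - u) (v - u) = ipp (v - J M (io u)) (v - J M (io u))
          + ipp (J M (io u) - u) (J M (io u) - u) := by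
      have e : v - u = (v - J M (io u)) + (J M (io u) - u) := by abel
      have e2 := ipp_sq_add (v - J M (io u)) (J M (io u) - u)
      rw [← e, hperp _ (Submodule.sub_mem _ hvM (hJV M _))] at e2
      linarith
    have h3 : 0 ≤ ipp (v - J M (io u)) (v - J M (io u)) := ip_nonneg _
    have h4 : ipp (v - u) (v - u) ≤ δ ^ 2 * K := by
      apply ipp_sup hδ0.le
      intro x hx
      have := hvd x hx
      rw [abs_sub_comm] at this
      exact this
    have h5 : δ ^ 2 * K ≤ ε := by
      have h6 : δ ≤ 1 := min_le_left _ _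
      have h7 : δ ≤ ε / K := min_le_right _ _
      have h8 : δ * K ≤ ε := by rwa [le_div_iff₀ hK0] at h7
      nlinarith [mul_pos hδ0 hK0]
    have h6 : ipp (J n (io u) - J M (io u)) (J n (io u) - J M (io u))
        = ipp (J M (io u) - J n (io u)) (J M (io u) - J n (io u)) := by
      have e : J n (io u) - J M (io u) = -(J M (io u) - J n (io u)) := by abel
      rw [e]; unfold ipp; simp only [map_neg, LinearMap.neg_apply, neg_neg]
    have h7 := hin M hnM
    rw [h1, h6]
    linarith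
  exact le_of_forall_pos_le_add hmain

end Pool.Agent.Helper79.RS
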